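import Mathlib

/-!
# MP_cb27ba_nt, project TN (theorem N): exact statements of the modules

Power saving for the matrix `χ (a - b)`, `a, b ∈ X`, for every set `X` with `|X| ≥ p ^ (1/2-c)` which
has at least `p ^ δ` near-periods `x`, `|X \ (x + X)| ≤ p ^ (-t) |X|`.
-/

set_option autoImplicit false

namespace MPcb27.TN

open Finset
open scoped Pointwise

/-- the near-periods of `X` with error `ε` -/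
noncomputable def Per {p : ℕ} [NeZero p] (X : Finset (ZMod p)) (ε : ℝ) : Finset (ZMod p) := by
  classical
  exact univ.filter fun x => (#(X \ (x +ᵥ X)) : ℝ) ≤ ε * #X

/-- PIG: `Y_0 = Per X ε`, `Y_(j+1) = Y_j + Y_j`; for some `j < J` the doubling is at most
`p ^ (1/J)`. -/
def SpecPIG : Prop :=
  ∀ (p : ℕ) [Fact p.Prime] (X : Finset (ZMod p)) (ε : ℝ) (J : ℕ), 0 ≤ ε → 1 ≤ J →
    ∃ Y : Finset (ZMod p), Per X ε ⊆ Y ∧ Y.Nonempty ∧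
      (∀ y ∈ Y, (#(X \ (y +ᵥ X)) : ℝ) ≤ 2 ^ J * ε * #X ∧ (#(X \ (-y +ᵥ X)) : ℝ) ≤ 2 ^ J * ε * #X) ∧
      (#(Y + Y) : ℝ) ≤ (p : ℝ) ^ ((1 : ℝ) / J) * #Y

/-- APF: a progression inside `2Y - 2Y` (longest side of the progression of `SpecFr`). -/
def SpecAPF : Prop :=
  ∀ K : ℝ, ∃ (d : ℕ) (C : ℝ), ∀ (p : ℕ) [Fact p.Prime] (Y : Finset (ZMod p)), Y.Nonempty →
    (#(Y + Y) : ℝ) ≤ K * #Y →
    ∃ (g : ZMod p) (N : ℕ), 1 ≤ N ∧ (#Y : ℝ) ≤ C * (2 * (N : ℝ)) ^ d ∧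
      Set.InjOn (fun n : ℕ => (n : ZMod p) * g) (Set.Iio N) ∧
      ∀ n : ℕ, n < N → ∃ a₁ ∈ Y, ∃ a₂ ∈ Y, ∃ a₃ ∈ Y, ∃ a₄ ∈ Y,
        (n : ZMod p) * g = a₁ + a₂ - a₃ - a₄

/-- SUM: near-periods add up, and a short set of near-periods does not enlarge `X`. -/
def SpecSUM : Prop :=
  ∀ (p : ℕ) [Fact p.Prime] (X L : Finset (ZMod p)) (ε : ℝ),
    (∀ x y : ZMod p, #(X \ ((x + y) +ᵥ X)) ≤ #(X \ (x +ᵥ X)) + #(X \ (y +ᵥ X))) ∧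
    (∀ x : ZMod p, #(X \ (-x +ᵥ X)) = #(X \ (x +ᵥ X))) ∧
    ((∀ x ∈ L, (#(X \ (x +ᵥ X)) : ℝ) ≤ ε * #X) → (#(X + L) : ℝ) ≤ (1 + #L * ε) * #X)

/-- the final theorem -/
def FinalN : Prop :=
  ∀ δ t : ℝ, 0 < δ → 0 < t → ∃ c : ℝ, 0 < c ∧ ∃ P : ℕ, ∀ (p : ℕ) [Fact p.Prime], P ≤ p →
    ∀ X : Finset (ZMod p), (p : ℝ) ^ (1 / 2 - c) ≤ #X →
      (p : ℝ) ^ δ ≤ #(Per X ((p : ℝ) ^ (-t))) →
      ∀ (α β : ZMod p → ℂ) (χ : MulChar (ZMod p) ℂ), χ ≠ 1 →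
        ‖∑ a ∈ X, ∑ b ∈ X, α a * β b * χ (a - b)‖ ≤
          (#X : ℝ) ^ (1 - c) *
            (Real.sqrt (∑ a ∈ X, ‖α a‖ ^ 2) * Real.sqrt (∑ b ∈ X, ‖β b‖ ^ 2))

end MPcb27.TN
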